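import Pool.Agent.P.MP_c2f774_co.Final

set_option autoImplicit false

namespace Pool.Agent.Results.MP_c2f774_co.LinearCoefficient

open Pool.Agent.P.MP_c2f774_co

/-- The Ehrhart polynomial of the Birkhoff polytope `B_n` has linear coefficient
`∑_{k=1}^{n-1} (n-k)/k²`, which is positive for every `n ≥ 2`. -/
theorem result :
    ∀ n : ℕ, 1 ≤ n →
      ∃ p : Polynomial ℚ,
        (∀ t : ℕ, p.eval (t : ℚ) =
          (((Finset.univ.filter
              (fun M : Fin n → Fin n → Fin (t + 1) =>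
                (∀ i : Fin n, ∑ j : Fin n, ((M i j : ℕ)) = t) ∧
                (∀ j : Fin n, ∑ i : Fin n, ((M i j : ℕ)) = t))).card : ℕ) : ℚ)) ∧
        p.coeff 1 = ∑ k ∈ Finset.Ico 1 n, ((n : ℚ) - (k : ℚ)) / (k : ℚ) ^ 2 ∧
        (2 ≤ n → 0 < p.coeff 1) := by
  intro n hn
  rcases hn.eq_or_lt with rfl | hn
  · refine ⟨1, fun t => ?_, by simp [Polynomial.coeff_one], fun h => absurd h (by omega)⟩
    rw [count_eq, NT_one _ _ (by simp)]; simp
  obtain ⟨n, rfl⟩ : ∃ k, n = k + 2 := ⟨n - 2, by omega⟩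
  obtain ⟨P, h1, h2, h3⟩ := birkhoff' n
  refine ⟨P, fun t => ?_, h3, fun _ => ?_⟩
  · rw [count_eq]
    rcases Nat.eq_zero_or_pos t with rfl | ht
    · rw [NT_zero, Nat.cast_zero, ← Polynomial.coeff_zero_eq_eval_zero, h2, Nat.cast_one]
    · exact h1 t ht
  · rw [h3]
    refine Finset.sum_pos (fun k hk => ?_) ⟨1, by simp⟩
    obtain ⟨k1, k2⟩ := Finset.mem_Ico.1 hk
    have k3 : (k : ℚ) < (n + 2 : ℕ) := by exact_mod_cast k2
    have k4 : (0 : ℚ) < k := by exact_mod_cast k1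
    exact div_pos (sub_pos.2 k3) (by positivity)

end Pool.Agent.Results.MP_c2f774_co.LinearCoefficient
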